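import Pool.Agent.Helper92.BW.GoalsC
import Pool.Agent.Helper62.FR.PTN

/-!
# MP_481f43_lc, packet BW-PFO: the forest is polynomial time
-/

set_option autoImplicit false

namespace Pool.Agent.Helper82.BW

open Pool.Agent.Helper81.CC Pool.Agent.Bin Pool.Agent.Helper92.VP Pool.Agent.Helper92.FR
open Pool.Agent.Helper92.BW

variable {α : Type} [ToData α]

@[fun_prop] theorem PT_clm {n i t : α → ℕ} {par : α → List ℕ} (hn : PolyTime n)
    (hp : PolyTime par) (hi : PolyTime i) (ht : PolyTime t) :
    PolyTime (fun a => clm (n a) (par a) (i a) (t a)) := by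
  unfold clm
  refine PolyTime.foldl_inv (step := fun a (x : ℕ) (_ : ℕ) =>
      if x < n a then min ((par a).getD x x) (n a) else n a) (by fun_prop) hi ?_
    (fun a s => s ≤ max (i a) (n a)) (B := fun a => 2 * (i a + n a) + 1) ?_ ?_ ?_ ?_
  · fun_prop
  · have h1 : PolyTime (fun a => i a + n a) := by fun_prop
    exact h1.bd.mono fun a => by rw [sz_nat]
  · intro a
    exact le_max_left _ _
  · intro a s b _ _
    split_ifs
    · exact (min_le_right _ _).trans (le_max_right _ _)
    · exact le_max_right _ _
  · intro a s hs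
    rw [sz_nat]
    have : max (i a) (n a) ≤ i a + n a := max_le (by omega) (by omega)
    omega

@[fun_prop] theorem PT_abvB {n i j : α → ℕ} {par : α → List ℕ} (hn : PolyTime n)
    (hp : PolyTime par) (hi : PolyTime i) (hj : PolyTime j) :
    PolyTime (fun a => abvB (n a) (par a) (i a) (j a)) := by
  unfold abvB; fun_prop

@[fun_prop] theorem PT_lowr {n : α → ℕ} {r : α → List Qn × Qn} (hn : PolyTime n)
    (hr : PolyTime r) : PolyTime (fun a => lowr (n a) (r a)) := by
  unfold lowr; fun_prop

@[fun_prop] theorem PT_fam {n v : α → ℕ} {par : α → List ℕ} {rows : α → List (List Qn × Qn)}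
    (hn : PolyTime n) (hp : PolyTime par) (hr : PolyTime rows) (hv : PolyTime v) :
    PolyTime (fun a => fam (n a) (par a) (rows a) (v a)) := by
  unfold fam; fun_prop

/-- PFO. -/
theorem pfo : PfoStmt := by
  intro α _ n v par rows r hn hv hp hrows hr
  exact ⟨PT_fam hn hp hrows hv, PT_lowr hn hr⟩

end Pool.Agent.Helper82.BW
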